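import Pool.Agent.W921.VP.Defs

/-!
# Project VP of helper921, part AT2: back and forth between almost trivial structures
-/

set_option autoImplicit false

namespace Pool.Agent.W902.VP

open FirstOrder Set Pool.Agent.W921.VP

/-! ### Back and forth -/

section bf

variable (P : Finset (ℕ × ℕ) → Prop)

theorem step (forth : ∀ g, P g → ∀ x, ∃ y, P (insert (x, y) g))
    (back : ∀ g, P g → ∀ y, ∃ x, P (insert (x, y) g)) (k : ℕ) (g : Finset (ℕ × ℕ)) (hg : P g) :
    ∃ g', P g' ∧ g ⊆ g' ∧ (∃ y, (k, y) ∈ g') ∧ ∃ x, (x, k) ∈ g' := by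
  obtain ⟨y, hy⟩ := forth g hg k
  obtain ⟨x, hx⟩ := back _ hy k
  refine ⟨_, hx, ?_, ⟨y, ?_⟩, x, ?_⟩
  · exact (Finset.subset_insert _ _).trans (Finset.subset_insert _ _)
  · exact Finset.mem_insert_of_mem (Finset.mem_insert_self _ _)
  · exact Finset.mem_insert_self _ _

theorem back_forth (g₀ : Finset (ℕ × ℕ)) (h0 : P g₀)
    (hinj : ∀ g, P g → ∀ q ∈ g, ∀ q' ∈ g, (q.1 = q'.1 ↔ q.2 = q'.2))
    (forth : ∀ g, P g → ∀ x, ∃ y, P (insert (x, y) g))
    (back : ∀ g, P g → ∀ y, ∃ x, P (insert (x, y) g)) :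
    ∃ e : ℕ ≃ ℕ, ∀ s : Finset ℕ, ∃ g, P g ∧ ∀ x ∈ s, (x, e x) ∈ g := by
  choose! nx hP hsub hdom hran using step P forth back
  let G : ℕ → Finset (ℕ × ℕ) := fun k => Nat.rec g₀ (fun k g => nx k g) k
  have hG : ∀ k, P (G k) := by
    intro k
    induction k with
    | zero => exact h0
    | succ k ih => exact hP k _ ih
  have hmono : Monotone G := monotone_nat_of_le_succ fun k => hsub k _ (hG k)
  have hd : ∀ k, ∃ y, (k, y) ∈ G (k + 1) := fun k => hdom k _ (hG k)
  have hr : ∀ k, ∃ x, (x, k) ∈ G (k + 1) := fun k => hran k _ (hG k)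
  choose f hf using hd
  choose f' hf' using hr
  have huniq : ∀ k l (q q' : ℕ × ℕ), q ∈ G k → q' ∈ G l → (q.1 = q'.1 ↔ q.2 = q'.2) := by
    intro k l q q' hq hq'
    exact hinj (G (max k l)) (hG _) q (hmono (le_max_left _ _) hq) q'
      (hmono (le_max_right _ _) hq')
  refine ⟨⟨f, f', ?_, ?_⟩, ?_⟩
  · intro x
    exact (huniq (f x + 1) (x + 1) (f' (f x), f x) (x, f x) (hf' (f x)) (hf x)).2 rfl
  · intro y
    exact (huniq (f' y + 1) (y + 1) (f' y, f (f' y)) (f' y, y) (hf (f' y)) (hf' y)).1 rfl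
  · intro s
    refine ⟨G (s.sup id + 1), hG (s.sup id + 1), ?_⟩
    intro x hx
    exact hmono (Nat.succ_le_succ (Finset.le_sup (f := id) hx)) (hf x)

end bf

/-! ### Twins and finite isomorphisms -/

section tw

variable {L : FirstOrder.Language.{0, 0}}

theorem sw_eq (x y z : ℕ) : sw x y z = Equiv.swap x y z := by
  unfold sw
  rw [Equiv.swap_apply_def]
  by_cases h1 : z = x
  · rw [if_pos h1, if_pos h1]
  · rw [if_neg h1, if_neg h1]
    by_cases h2 : z = y
    · rw [if_pos h2, if_pos h2]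
    · rw [if_neg h2, if_neg h2]

theorem sw_map (e : ℕ ≃ ℕ) (x y z : ℕ) : e (sw x y z) = sw (e x) (e y) (e z) := by
  unfold sw
  by_cases h1 : z = x
  · rw [if_pos h1, if_pos (congrArg e h1)]
  · rw [if_neg h1, if_neg (fun h => h1 (e.injective h))]
    by_cases h2 : z = y
    · rw [if_pos h2, if_pos (congrArg e h2)]
    · rw [if_neg h2, if_neg (fun h => h2 (e.injective h))]

theorem tw_map {S S' : L.Structure ℕ} {F : Finset (Sym L)} {e : ℕ ≃ ℕ} (he : FIso S S' F e)
    {R : Sym L} (hR : R ∈ F) (x y : ℕ) : Tw S R.2 x y ↔ Tw S' R.2 (e x) (e y) := by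
  constructor
  · intro h s
    have h1 := h (fun i => e.symm (s i))
    rw [he R hR, he R hR] at h1
    simpa only [sw_map, Equiv.apply_symm_apply] using h1
  · intro h s
    rw [he R hR, he R hR]
    have h1 := h (fun i => e (s i))
    simpa only [sw_map] using h1

theorem fiso_symm {S S' : L.Structure ℕ} {F : Finset (Sym L)} {e : ℕ ≃ ℕ}
    (he : FIso S S' F e) : FIso S' S F e.symm := by
  intro R hR s
  rw [he R hR]
  simp only [Equiv.apply_symm_apply]

theorem fiso_swap {S S' : L.Structure ℕ} {F : Finset (Sym L)} {e : ℕ ≃ ℕ}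
    (he : FIso S S' F e) (x y : ℕ) (h : TwF S' F x y) :
    FIso S S' F (e.trans (Equiv.swap x y)) := by
  intro R hR s
  rw [he R hR, ← h R hR]
  simp only [sw_eq, Equiv.trans_apply]

variable (hsw : S_SW)
include hsw

theorem twA_refl (S : L.Structure ℕ) (x : ℕ) : TwA S x x := fun R => (hsw L ℕ S R.1 R.2).1.refl x

theorem twA_symm {S : L.Structure ℕ} {x y : ℕ} (h : TwA S x y) : TwA S y x :=
  fun R => (hsw L ℕ S R.1 R.2).1.symm (h R)

theorem twA_trans {S : L.Structure ℕ} {x y z : ℕ} (h : TwA S x y) (h' : TwA S y z) : TwA S x z :=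
  fun R => (hsw L ℕ S R.1 R.2).1.trans (h R) (h' R)

theorem twF_symm {S : L.Structure ℕ} {F : Finset (Sym L)} {x y : ℕ} (h : TwF S F x y) :
    TwF S F y x :=
  fun R hR => (hsw L ℕ S R.1 R.2).1.symm (h R hR)

theorem twF_trans {S : L.Structure ℕ} {F : Finset (Sym L)} {x y z : ℕ} (h : TwF S F x y)
    (h' : TwF S F y z) : TwF S F x z :=
  fun R hR => (hsw L ℕ S R.1 R.2).1.trans (h R hR) (h' R hR)

end tw

/-! ### The states -/

section states

variable {L : FirstOrder.Language.{0, 0}} {n : ℕ}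

/-- a state of the back and forth construction -/
structure Sta (S S' : L.Structure ℕ) (a a' : Fin n → ℕ) (g : Finset (ℕ × ℕ)) : Prop where
  ext : ∀ F : Finset (Sym L), ∃ e : ℕ ≃ ℕ, (∀ q ∈ g, e q.1 = q.2) ∧ (∀ i, e (a i) = a' i) ∧
    FIso S S' F e
  cls : ∀ q ∈ g, ∀ i, TwA S q.1 (a i) ↔ TwA S' q.2 (a' i)

theorem Sta.inj {S S' : L.Structure ℕ} {a a' : Fin n → ℕ} {g : Finset (ℕ × ℕ)}
    (h : Sta S S' a a' g) : ∀ q ∈ g, ∀ q' ∈ g, (q.1 = q'.1 ↔ q.2 = q'.2) := by
  intro q hq q' hq'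
  obtain ⟨e, he, -⟩ := h.ext ∅
  rw [← he q hq, ← he q' hq', e.apply_eq_iff_eq]

theorem Sta.symm {S S' : L.Structure ℕ} {a a' : Fin n → ℕ} {g : Finset (ℕ × ℕ)}
    (h : Sta S S' a a' g) : Sta S' S a' a (g.image Prod.swap) := by
  refine ⟨fun F => ?_, ?_⟩
  · obtain ⟨e, he, hea, hF⟩ := h.ext F
    refine ⟨e.symm, ?_, ?_, fiso_symm hF⟩
    · intro q hq
      rw [Finset.mem_image] at hq
      obtain ⟨r, hr, rfl⟩ := hq
      rw [Equiv.symm_apply_eq]
      exact (he r hr).symm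
    · intro i
      rw [Equiv.symm_apply_eq]
      exact (hea i).symm
  · intro q hq i
    rw [Finset.mem_image] at hq
    obtain ⟨r, hr, rfl⟩ := hq
    exact (h.cls r hr i).symm

/-- the final step of both cases -/
theorem Sta.add {S S' : L.Structure ℕ} {a a' : Fin n → ℕ} {g : Finset (ℕ × ℕ)}
    (y y' : ℕ) (hy : ∀ q ∈ g, q.1 ≠ y) (hya : ∀ i, a i ≠ y)
    (hy' : ∀ q ∈ g, q.2 ≠ y') (hya' : ∀ i, a' i ≠ y')
    (hcls0 : ∀ q ∈ g, ∀ i, TwA S q.1 (a i) ↔ TwA S' q.2 (a' i))
    (hcls : ∀ i, TwA S y (a i) ↔ TwA S' y' (a' i))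
    (hext : ∀ F : Finset (Sym L), ∃ e : ℕ ≃ ℕ, (∀ q ∈ g, e q.1 = q.2) ∧
      (∀ i, e (a i) = a' i) ∧ FIso S S' F e ∧ TwF S' F (e y) y') :
    Sta S S' a a' (insert (y, y') g) := by
  refine ⟨fun F => ?_, ?_⟩
  · obtain ⟨e, he, hea, hF, ht⟩ := hext F
    refine ⟨e.trans (Equiv.swap (e y) y'), ?_, ?_, fiso_swap hF _ _ ht⟩
    · intro q hq
      rw [Finset.mem_insert] at hq
      rcases hq with rfl | hq
      · simp
      · rw [Equiv.trans_apply, he q hq]
        refine Equiv.swap_apply_of_ne_of_ne ?_ (hy' q hq)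
        rw [← he q hq]
        exact fun h => hy q hq (e.injective h)
    · intro i
      rw [Equiv.trans_apply, hea i]
      refine Equiv.swap_apply_of_ne_of_ne ?_ (hya' i)
      rw [← hea i]
      exact fun h => hya i (e.injective h)
  · intro q hq i
    rw [Finset.mem_insert] at hq
    rcases hq with rfl | hq
    · exact hcls i
    · exact hcls0 q hq i

variable (hsw : S_SW)
include hsw

/-- a free point in the corresponding class -/
theorem free_point {S S' : L.Structure ℕ} {a a' : Fin n → ℕ}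
    (ha' : ∀ i j, i ≠ j → ¬ TwA S' (a' i) (a' j))
    (hcard : ∀ i, Set.encard {x | TwA S x (a i)} = Set.encard {x | TwA S' x (a' i)})
    (g : Finset (ℕ × ℕ)) (hg : Sta S S' a a' g) (y : ℕ) (hdom : ∀ q ∈ g, q.1 ≠ y)
    (hran : ∀ i, a i ≠ y) (j : Fin n) (hj : TwA S y (a j)) :
    ∃ y', TwA S' y' (a' j) ∧ (∀ q ∈ g, q.2 ≠ y') ∧ ∀ i, a' i ≠ y' := by
  by_contra hno
  obtain ⟨e, he, hea, -⟩ := hg.ext ∅
  set A : Set ℕ := {x | TwA S x (a j) ∧ (x = a j ∨ ∃ q ∈ g, q.1 = x)} with hA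
  have hAfin : A.Finite := by
    refine Set.Finite.subset (s := insert (a j) (g.image Prod.fst : Set ℕ))
      ((Finset.finite_toSet _).insert _) ?_
    rintro x ⟨-, rfl | ⟨q, hq, rfl⟩⟩
    · exact Set.mem_insert _ _
    · refine Set.mem_insert_of_mem _ ?_
      exact Finset.mem_coe.2 (Finset.mem_image_of_mem _ hq)
  have hss : A ⊂ {x | TwA S x (a j)} := by
    refine ⟨fun x hx => hx.1, fun h => ?_⟩
    obtain ⟨-, h1 | ⟨q, hq, h1⟩⟩ := h hj
    · exact hran j h1.symm
    · exact hdom q hq h1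
  have h1 := hAfin.encard_lt_encard hss
  have h2 : {x | TwA S' x (a' j)} ⊆ e '' A := by
    intro x hx
    by_cases h3 : ∃ q ∈ g, q.2 = x
    · obtain ⟨q, hq, rfl⟩ := h3
      exact ⟨q.1, ⟨(hg.cls q hq j).2 hx, Or.inr ⟨q, hq, rfl⟩⟩, he q hq⟩
    · by_cases h4 : ∃ i, a' i = x
      · obtain ⟨i, rfl⟩ := h4
        by_cases hij : i = j
        · subst hij
          exact ⟨a i, ⟨twA_refl hsw S _, Or.inl rfl⟩, hea i⟩
        · exact absurd hx (ha' i j hij)
      · push Not at h3 h4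
        exact absurd ⟨x, hx, h3, h4⟩ hno
  have h3 := Set.encard_le_encard h2
  rw [e.injective.encard_image, ← hcard] at h3
  exact absurd h1 (not_lt.2 h3)

/-- finitely many classes of twins for finitely many symbols -/
theorem fin_classes {S : L.Structure ℕ} (hfin : ∀ R, FinInd S R) (F : Finset (Sym L)) :
    ∃ D : Finset ℕ, ∀ x, ∃ d ∈ D, TwF S F x d := by
  choose D r hr hrt using hfin
  let Φ : ℕ → ((R : F) → D R.1) := fun x R => ⟨r R.1 x, hr R.1 x⟩
  have hfr : (Set.range Φ).Finite := Set.toFinite _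
  choose ρ hρ using fun v : Set.range Φ => v.2
  have := hfr.to_subtype
  have hfin : (Set.range ρ).Finite := Set.finite_range ρ
  refine ⟨hfin.toFinset, fun x => ⟨ρ ⟨Φ x, x, rfl⟩, ?_, ?_⟩⟩
  · rw [Set.Finite.mem_toFinset]
    exact ⟨_, rfl⟩
  · intro R hR
    have h1 : Φ (ρ ⟨Φ x, x, rfl⟩) = Φ x := hρ ⟨Φ x, x, rfl⟩
    have h2 : r R (ρ ⟨Φ x, x, rfl⟩) = r R x := by
      have h3 := congrFun h1 ⟨R, hR⟩
      exact congrArg Subtype.val h3
    have h4 := hrt R (ρ ⟨Φ x, x, rfl⟩)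
    rw [h2] at h4
    exact (hsw L ℕ S R.1 R.2).1.trans (hrt R x) ((hsw L ℕ S R.1 R.2).1.symm h4)

theorem forth {S S' : L.Structure ℕ} {a a' : Fin n → ℕ} (hfin : ∀ R, FinInd S' R)
    (ha : ∀ i j, i ≠ j → ¬ TwA S (a i) (a j)) (ha' : ∀ i j, i ≠ j → ¬ TwA S' (a' i) (a' j))
    (hiso : ∀ x, NonIso S x → ∃ i, TwA S x (a i))
    (hcard : ∀ i, Set.encard {x | TwA S x (a i)} = Set.encard {x | TwA S' x (a' i)})
    (g : Finset (ℕ × ℕ)) (hg : Sta S S' a a' g) (y : ℕ) :
    ∃ y', Sta S S' a a' (insert (y, y') g) := by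
  classical
  by_cases hdom : ∃ q ∈ g, q.1 = y
  · obtain ⟨q, hq, rfl⟩ := hdom
    refine ⟨q.2, ?_⟩
    rw [Finset.insert_eq_of_mem (a := (q.1, q.2)) hq]
    exact hg
  by_cases hran : ∃ i, a i = y
  · obtain ⟨i, rfl⟩ := hran
    refine ⟨a' i, fun F => ?_, ?_⟩
    · obtain ⟨e, he, hea, hF⟩ := hg.ext F
      refine ⟨e, ?_, hea, hF⟩
      intro q hq
      rw [Finset.mem_insert] at hq
      rcases hq with rfl | hq
      · exact hea i
      · exact he q hq
    · intro q hq j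
      rw [Finset.mem_insert] at hq
      rcases hq with rfl | hq
      · by_cases hij : i = j
        · subst hij
          exact ⟨fun _ => twA_refl hsw S' _, fun _ => twA_refl hsw S _⟩
        · exact ⟨fun h => absurd h (ha i j hij), fun h => absurd h (ha' i j hij)⟩
      · exact hg.cls q hq j
  push Not at hdom hran
  by_cases hcl : ∃ j, TwA S y (a j)
  · obtain ⟨j, hj⟩ := hcl
    -- a free point in the class
    obtain ⟨y', hy'c, hy'g, hy'a⟩ := free_point hsw ha' hcard g hg y hdom hran j hj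
    refine ⟨y', Sta.add y y' hdom hran hy'g hy'a hg.cls ?_ ?_⟩
    · intro i
      by_cases hij : j = i
      · subst hij
        exact ⟨fun _ => hy'c, fun _ => hj⟩
      · exact ⟨fun h => absurd (twA_trans hsw (twA_symm hsw hj) h) (ha j i hij),
          fun h => absurd (twA_trans hsw (twA_symm hsw hy'c) h) (ha' j i hij)⟩
    · intro F
      obtain ⟨e, he, hea, hF⟩ := hg.ext F
      refine ⟨e, he, hea, hF, ?_⟩
      have h1 : TwF S' F (e y) (a' j) := by
        intro R hR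
        rw [← hea j]
        exact (tw_map hF hR _ _).1 (hj R)
      exact twF_trans hsw h1 (fun R _ => twA_symm hsw hy'c R)
  · have hni : ¬ NonIso S y := fun h => hcl (hiso y h)
    unfold NonIso at hni
    push Not at hni
    obtain ⟨F₀, hF₀⟩ := hni
    choose e he hea hF using hg.ext
    obtain ⟨D, hD⟩ := fin_classes hsw hfin F₀
    obtain ⟨d, hd⟩ : ∃ d, ∀ F, ∃ G, F ⊆ G ∧ F₀ ⊆ G ∧ TwF S' F₀ (e G y) d := by
      by_contra hno
      push Not at hno
      choose B hB using hno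
      obtain ⟨d, hdD, hd⟩ := hD (e (F₀ ∪ D.biUnion B) y)
      exact hB d _ ((Finset.subset_biUnion_of_mem B hdD).trans Finset.subset_union_right)
        Finset.subset_union_left hd
    -- the class of `d`
    have hcls : ∀ z, TwF S' F₀ z d → TwA S' z d := by
      intro z hz R
      obtain ⟨G, hRG, hG, hdG⟩ := hd {R}
      have hRG' : R ∈ G := hRG (Finset.mem_singleton_self R)
      have key : ∀ w, TwF S' F₀ (e G y) w → Tw S' R.2 (e G y) w := by
        intro w hw
        have h1 : TwF S F₀ y ((e G).symm w) := by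
          intro Q hQ
          rw [tw_map (hF G) (hG hQ), Equiv.apply_symm_apply]
          exact hw Q hQ
        have h2 := (tw_map (hF G) hRG' _ _).1 (hF₀ _ h1 R)
        rwa [Equiv.apply_symm_apply] at h2
      have h3 := key d hdG
      have h4 := key z (twF_trans hsw hdG (twF_symm hsw hz))
      exact (hsw L ℕ S' R.1 R.2).1.trans ((hsw L ℕ S' R.1 R.2).1.symm h4) h3
    obtain ⟨G₁, -, hG₁, hd₁⟩ := hd ∅
    refine ⟨e G₁ y, Sta.add y (e G₁ y) hdom hran ?_ ?_ hg.cls ?_ ?_⟩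
    · intro q hq h
      rw [← he G₁ q hq] at h
      exact hdom q hq ((e G₁).injective h)
    · intro i h
      rw [← hea G₁ i] at h
      exact hran i ((e G₁).injective h)
    · intro i
      refine ⟨fun h => absurd ⟨i, h⟩ hcl, fun h => ?_⟩
      refine hF₀ _ fun R hR => (tw_map (hF G₁) (hG₁ hR) _ _).2 ?_
      rw [hea G₁]
      exact h R
    · intro F
      obtain ⟨G, hFG, hFG₀, hdG⟩ := hd F
      refine ⟨e G, he G, hea G, fun R hR => hF G R (hFG hR), ?_⟩
      intro R _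
      exact twA_trans hsw (hcls _ hdG) (twA_symm hsw (hcls _ hd₁)) R

end states

theorem task (h : S_SW) : S_AT2 := by
  intro L _ _ S S' hf hf' n a a' ha ha' hiso hiso' hcard hext
  obtain ⟨e, he⟩ := back_forth (Sta S S' a a') ∅
    ⟨fun F => by
      obtain ⟨e, hea, hF⟩ := hext F
      exact ⟨e, fun q hq => absurd hq (Finset.notMem_empty q), hea, hF⟩,
      fun q hq => absurd hq (Finset.notMem_empty q)⟩
    (fun g hg => hg.inj)
    (fun g hg x => forth h hf' ha ha' hiso hcard g hg x)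
    (fun g hg y => by
      obtain ⟨x, hx⟩ := forth h hf ha' ha hiso' (fun i => (hcard i).symm) _ hg.symm y
      refine ⟨x, ?_⟩
      have h1 := hx.symm
      rw [Finset.image_insert, Finset.image_image, Prod.swap_swap_eq, Finset.image_id] at h1
      exact h1)
  refine ⟨e, fun m R s => ?_⟩
  obtain ⟨g, hg, hs⟩ := he (Finset.univ.image s)
  obtain ⟨e', he', -, hF⟩ := hg.ext {⟨m, R⟩}
  have h1 := hF ⟨m, R⟩ (Finset.mem_singleton_self _) s
  have h2 : (fun i => e' (s i)) = fun i => e (s i) := by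
    funext i
    exact he' (s i, e (s i)) (hs _ (Finset.mem_image_of_mem _ (Finset.mem_univ i)))
  rw [← h2]
  exact h1

end Pool.Agent.W902.VP
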